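import Pool.Agent.H57.OC.Data
import Pool.Agent.H57.OC.Full
import Pool.Agent.H57.OC.Sides

set_option autoImplicit false

/-!
# Outer `k`-planar graphs with many edges

`ConvexKPlanar k G` (file `Pool/Agent/H57/OC/Block.lean`): in the straight-line drawing of `G` with
its vertices at the corners `0, 1, …, n-1` of a convex `n`-gon, every edge is crossed by at most `k`
edges. `HasSides G` (file `Pool/Agent/H57/OC/Sides.lean`): all sides of the `n`-gon are edges of `G`;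
no edge crosses a side, so the drawing is fully-outer `k`-planar.
-/

namespace Pool.Agent.Results.MP_df3d6f_co.GluedBlocks

open Pool.Agent.H57.OC

theorem result :
    (∀ w : ℕ, 1 ≤ w → ∀ n : ℕ, ∃ G : SimpleGraph (Fin n), ConvexKPlanar (w * w / 4) G ∧ HasSides G ∧
      ((w : ℝ) + 3) / 2 * n - 3 * (w * (w + 3)) / 2 ≤ (G.edgeSet.ncard : ℝ)) ∧
    ∀ n : ℕ,
    (∃ G : SimpleGraph (Fin n), ConvexKPlanar 5 G ∧ HasSides G ∧
      37 / 10 * (n : ℝ) - 111 ≤ (G.edgeSet.ncard : ℝ)) ∧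
    (∃ G : SimpleGraph (Fin n), ConvexKPlanar 7 G ∧ HasSides G ∧
      46 / 11 * (n : ℝ) - 138 ≤ (G.edgeSet.ncard : ℝ)) ∧
    (∃ G : SimpleGraph (Fin n), ConvexKPlanar 8 G ∧ HasSides G ∧
      13 / 3 * (n : ℝ) - 78 ≤ (G.edgeSet.ncard : ℝ)) ∧
    (∃ G : SimpleGraph (Fin n), ConvexKPlanar 10 G ∧ HasSides G ∧
      14 / 3 * (n : ℝ) - 210 ≤ (G.edgeSet.ncard : ℝ)) ∧
    (∃ G : SimpleGraph (Fin n), ConvexKPlanar 11 G ∧ HasSides G ∧
      77 / 16 * (n : ℝ) - 231 ≤ (G.edgeSet.ncard : ℝ)) ∧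
    (∃ G : SimpleGraph (Fin n), ConvexKPlanar 13 G ∧ HasSides G ∧
      36 / 7 * (n : ℝ) - 216 ≤ (G.edgeSet.ncard : ℝ)) ∧
    (∃ G : SimpleGraph (Fin n), ConvexKPlanar 14 G ∧ HasSides G ∧
      37 / 7 * (n : ℝ) - 222 ≤ (G.edgeSet.ncard : ℝ)) ∧
    (∃ G : SimpleGraph (Fin n), ConvexKPlanar 15 G ∧ HasSides G ∧
      43 / 8 * (n : ℝ) - 129 ≤ (G.edgeSet.ncard : ℝ)) := by
  refine ⟨fun w hw n => add_sides (full_family w hw n), fun n => ?_⟩
  refine ⟨add_sides ?_, add_sides ?_, add_sides ?_, add_sides ?_, add_sides ?_, add_sides ?_,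
    add_sides ?_, add_sides ?_⟩
  · obtain ⟨G, h1, h2⟩ := family good5 n
    refine ⟨G, h1, le_trans (le_of_eq ?_) h2⟩
    have : L5.length = 37 := rfl
    rw [this]; push_cast; ring
  · obtain ⟨G, h1, h2⟩ := family good7 n
    refine ⟨G, h1, le_trans (le_of_eq ?_) h2⟩
    have : L7.length = 46 := rfl
    rw [this]; push_cast; ring
  · obtain ⟨G, h1, h2⟩ := family good8 n
    refine ⟨G, h1, le_trans (le_of_eq ?_) h2⟩
    have : L8.length = 26 := rfl
    rw [this]; push_cast; ring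
  · obtain ⟨G, h1, h2⟩ := family good10 n
    refine ⟨G, h1, le_trans (le_of_eq ?_) h2⟩
    have : L10.length = 70 := rfl
    rw [this]; push_cast; ring
  · obtain ⟨G, h1, h2⟩ := family good11 n
    refine ⟨G, h1, le_trans (le_of_eq ?_) h2⟩
    have : L11.length = 77 := rfl
    rw [this]; push_cast; ring
  · obtain ⟨G, h1, h2⟩ := family good13 n
    refine ⟨G, h1, le_trans (le_of_eq ?_) h2⟩
    have : L13.length = 72 := rfl
    rw [this]; push_cast; ring
  · obtain ⟨G, h1, h2⟩ := family good14 n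
    refine ⟨G, h1, le_trans (le_of_eq ?_) h2⟩
    have : L14.length = 74 := rfl
    rw [this]; push_cast; ring
  · obtain ⟨G, h1, h2⟩ := family good15 n
    refine ⟨G, h1, le_trans (le_of_eq ?_) h2⟩
    have : L15.length = 43 := rfl
    rw [this]; push_cast; ring

end Pool.Agent.Results.MP_df3d6f_co.GluedBlocks
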